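import Mathlib
import Pool.Agent.H283.Cheb.MarkovCover

/-!
# MP_80156a_co: Boltyanski's bound for unit balls of Markov systems and all bodies with such summands

Let `I` be a closed interval of the real line with more than one point (bounded, a half-line or
the whole line) and let `U_1, ..., U_n` be continuous functions on `I`, differentiable inside `I`,
whose derivatives form a Markov system inside `I`: for each `k ≤ n` a nontrivial linear
combination of `U_1', ..., U_k'` has less than `k` zeros. Let `w` be a continuous positive function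
on `I`, and `K` the set of all functions `f = x_0 + x_1 U_1 + ... + x_n U_n` with `|f| ≤ w` on `I`,
as a set of points `x` of `ℝ^d`, `d = n + 1`; this is the unit ball of the norm `sup |f| / w`.
(For a system `u_0, ..., u_n` with `u_0 > 0` divide by `u_0`: this changes `w` only.)

Examples: polynomials (`U_i = t^i`, `markov_powers` below), the span of `1, t^(r_1), ..., t^(r_n)`,
`0 < r_1 < ... < r_n`, on `I ⊆ [0, ∞)` (Müntz polynomials), sums of real exponentials, extended
complete Chebyshev systems.

We assume that `w` has no convex corners inside `I`: if two functions touch `w` from below at the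
same interior point of `I` and are differentiable there then they have the same derivative. This
is so if `w` is differentiable, or concave, or the minimum of finitely many differentiable
functions.

Let `L` be any nonempty compact convex set. We prove that the convex body `K + L` is illuminated
by `2^(d-1) + 2` directions, `d ≥ 2`. For `d ≥ 3` and every `h ≥ 3` this number is at most
`2^d - 2^(d-h)`. So Boltyanski's inequality holds for `K + L`, whatever its Helly dimension
`him(K + L) = h ≥ 3` is; and for `him(K + L) ≥ 3` the number does not grow with `him(K + L)`.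

Idea of the proof. It suffices to find a set of `2^n + 2` functions `q` in the span such that for
every `f` in `K` one of them has the same sign as `f` at all contact points of `f` (the points
with `|f| = w`). Let `P` be the element of `K` with the largest last coefficient. It is a snake:
it has `n + 1` contact points `c_0 < ... < c_n` with alternating signs. Let `f` be in `K`, not
`± P`. By counting the zeros of `P - f` and of `P + f` one sees that `f` has no contact points
outside of `[c_0, c_n]` and that all its contact points in one closed gap `[c_j, c_(j+1)]` have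
the same sign; here the assumption on `w` is used if one of them is `c_j` or `c_(j+1)`, because
then `P ∓ f` has a double zero there. So the signs of `f` at its contact points are those of one
of the `2^n` functions `± q_S`, `S ⊆ {1, ..., n-1}`, where `q_S` is a function in the span of
`1, U_1, ..., U_k`, `k = |S|`, with the zeros `c_j`, `j ∈ S`. These functions and `± P` will do.
-/

namespace Pool.Agent.Results.MP_80156a_co.MarkovSystemBalls

open Set Filter Topology Pointwise
open Pool.Agent.H283.Cheb

/-- The functions `f = x_0 + x_1 U_1 + ... + x_n U_n` with `|f(t)| ≤ w(t)` for all `t` in `I`, as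
a set of points of `ℝ^(n+1)`. -/
def unitBall {n : ℕ} (U : Fin n → ℝ → ℝ) (I : Set ℝ) (w : ℝ → ℝ) :
    Set (EuclideanSpace ℝ (Fin (n + 1))) :=
  {x | ∀ t ∈ I, |x 0 + ∑ i : Fin n, x i.succ * U i t| ≤ w t}

/-- `v_1, ..., v_n` is a Markov system on `J`: for each `k`, a nontrivial linear combination of
`v_1, ..., v_k` has less than `k` zeros in `J`. -/
def IsMarkovSystem {n : ℕ} (v : Fin n → ℝ → ℝ) (J : Set ℝ) : Prop :=
  ∀ (k : ℕ) (y : Fin n → ℝ), y ≠ 0 → (∀ i : Fin n, k ≤ (i : ℕ) → y i = 0) →
    ∀ Z : Finset ℝ, (∀ z ∈ Z, z ∈ J ∧ ∑ i, y i * v i z = 0) → Z.card < k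

/-- `w` has no convex corners in the interior of `I`: two functions which touch `w` from below at
an interior point `y` of `I` and are differentiable at `y` have the same derivative at `y`. -/
def NoConvexCorner (I : Set ℝ) (w : ℝ → ℝ) : Prop :=
  ∀ y ∈ interior I, ∀ f g : ℝ → ℝ, DifferentiableAt ℝ f y → DifferentiableAt ℝ g y →
    f y = w y → g y = w y → (∀ᶠ t in 𝓝 y, f t ≤ w t) → (∀ᶠ t in 𝓝 y, g t ≤ w t) →
    deriv f y = deriv g y

/-- A function that is differentiable in the interior of `I` has no convex corners there. -/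
theorem slope_of_differentiable {I : Set ℝ} {w : ℝ → ℝ}
    (h : ∀ y ∈ interior I, DifferentiableAt ℝ w y) : NoConvexCorner I w := by
  have key : ∀ y ∈ interior I, ∀ f : ℝ → ℝ, DifferentiableAt ℝ f y → f y = w y →
      (∀ᶠ t in 𝓝 y, f t ≤ w t) → deriv f y = deriv w y := by
    intro y hy f hf hfy hle
    have hmin : IsLocalMin (fun t => w t - f t) y := by
      filter_upwards [hle] with t ht
      rw [hfy, sub_self]
      linarith
    have h1 := hmin.deriv_eq_zero
    rw [deriv_fun_sub (h y hy) hf] at h1
    linarith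
  intro y hy f g hf hg hfy hgy hf' hg'
  rw [key y hy f hf hfy hf', key y hy g hg hgy hg']

/-- The derivatives `(i + 1) t^i` of the powers `t^(i+1)` form a Markov system. -/
theorem markov_powers (n : ℕ) (J : Set ℝ) :
    IsMarkovSystem (fun (i : Fin n) t => ((i : ℝ) + 1) * t ^ (i : ℕ)) J := by
  classical
  intro k y hy hk Z hZ
  obtain ⟨l, hl⟩ := Function.ne_iff.mp hy
  have hlk : (l : ℕ) < k := by
    by_contra h
    exact hl (hk l (not_lt.mp h))
  set p : Polynomial ℝ := ∑ i : Fin n, Polynomial.C (y i * ((i : ℝ) + 1)) * Polynomial.X ^ (i : ℕ)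
    with hp
  have hpe : ∀ z, p.eval z = ∑ i : Fin n, y i * (((i : ℝ) + 1) * z ^ (i : ℕ)) := by
    intro z
    rw [hp, Polynomial.eval_finsetSum]
    refine Finset.sum_congr rfl fun i _ => ?_
    simp only [Polynomial.eval_mul, Polynomial.eval_C, Polynomial.eval_pow, Polynomial.eval_X]
    ring
  have hdeg : p.natDegree < k := by
    have h1 : p.natDegree ≤ k - 1 := by
      refine Polynomial.natDegree_sum_le_of_forall_le _ _ fun i _ => ?_
      by_cases hi : (i : ℕ) < k
      · exact (Polynomial.natDegree_C_mul_X_pow_le _ _).trans (by omega)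
      · rw [hk i (not_lt.mp hi), zero_mul, map_zero, zero_mul, Polynomial.natDegree_zero]
        exact Nat.zero_le _
    omega
  have hp0 : p ≠ 0 := by
    intro h
    have h1 : p.coeff l = y l * ((l : ℝ) + 1) := by
      rw [hp, Polynomial.finsetSum_coeff, Finset.sum_eq_single l]
      · rw [Polynomial.coeff_C_mul_X_pow, if_pos rfl]
      · intro i _ hi
        rw [Polynomial.coeff_C_mul_X_pow, if_neg fun h => hi (Fin.ext h.symm)]
      · simp
    rw [h, Polynomial.coeff_zero] at h1
    have h2 : ((l : ℝ) + 1) ≠ 0 := by positivity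
    exact hl (by simpa using (mul_eq_zero.mp h1.symm).resolve_right h2)
  by_contra hcon
  push Not at hcon
  apply hp0
  refine Polynomial.eq_zero_of_natDegree_lt_card_of_eval_eq_zero' p Z ?_
    (lt_of_lt_of_le hdeg hcon)
  intro z hz
  rw [hpe]
  exact (hZ z hz).2

section aux

variable {n : ℕ} {a b : ℝ}

/-- Continuous extension of the functions, as a sequence. -/
noncomputable def ext (U : Fin n → ℝ → ℝ) (a b : ℝ) (hab : a < b) : ℕ → ℝ → ℝ :=
  fun i t => if h : i < n then U ⟨i, h⟩ (projIcc a b hab.le t) else 0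

theorem ext_sys (hab : a < b) {U v : Fin n → ℝ → ℝ} {J : Set ℝ} (hJ : Ioo a b ⊆ J)
    (hU : ∀ i, ContinuousOn (U i) (Icc a b)) (hd : ∀ i, ∀ t ∈ J, HasDerivAt (U i) (v i t) t)
    (hv : IsMarkovSystem v J) :
    Sys (ext U a b hab) (fun i t => if h : i < n then v ⟨i, h⟩ t else 0) a b n where
  cont i hi := by
    unfold ext
    simp only [dif_pos hi]
    exact ContinuousOn.comp_continuous (hU ⟨i, hi⟩)
      (continuous_subtype_val.comp continuous_projIcc) (fun t => (projIcc a b hab.le t).2)
  deriv i hi t h1 h2 := by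
    unfold ext
    simp only [dif_pos hi]
    refine (hd ⟨i, hi⟩ t (hJ ⟨h1, h2⟩)).congr_of_eventuallyEq ?_
    filter_upwards [Ioo_mem_nhds h1 h2] with s hs
    rw [projIcc_of_mem hab.le ⟨hs.1.le, hs.2.le⟩]
  cheb k hk y hy Z hZ := by
    obtain ⟨i0, hi0, hy0⟩ := hy
    refine hv k (fun i => if (i : ℕ) < k then y i else 0) ?_ ?_ Z ?_
    · intro h
      have := congrFun h ⟨i0, by omega⟩
      simp only [if_pos hi0, Pi.zero_apply] at this
      exact hy0 this
    · intro i hi
      simp only [if_neg (not_lt.mpr hi)]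
    · intro z hz
      obtain ⟨h1, h2⟩ := hZ z hz
      refine ⟨hJ h1, ?_⟩
      have e1 : ∑ i : Fin n, (if (i : ℕ) < k then y i else 0) * v i z =
          ∑ i ∈ Finset.range n, (if i < k then y i else 0) *
            (if h : i < n then v ⟨i, h⟩ z else 0) := by
        rw [Finset.sum_range]
        refine Finset.sum_congr rfl fun i _ => ?_
        rw [dif_pos i.2]
      refine Eq.trans ?_ h2
      unfold lin
      rw [e1, ← Finset.sum_subset (Finset.range_mono hk)]
      · exact Finset.sum_congr rfl fun i hi => by rw [if_pos (Finset.mem_range.mp hi)]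
      · intro i _ hi
        rw [if_neg (fun h => hi (Finset.mem_range.mpr h)), zero_mul]

theorem mv_ext (hab : a < b) (U : Fin n → ℝ → ℝ) (x : EuclideanSpace ℝ (Fin (n + 1))) {t : ℝ}
    (ht : t ∈ Icc a b) : mv (ext U a b hab) x t = x 0 + ∑ i : Fin n, x i.succ * U i t := by
  unfold mv ext
  congr 1
  refine Finset.sum_congr rfl fun i _ => ?_
  rw [dif_pos i.2, projIcc_of_mem hab.le ht]

theorem ball_ext (hab : a < b) (U : Fin n → ℝ → ℝ) (w : ℝ → ℝ) :
    unitBall U (Icc a b) w =
      mBall n (ext U a b hab) a b (fun t => w (projIcc a b hab.le t)) := by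
  ext x
  constructor
  · intro h t ht
    rw [mv_ext hab U x ht]
    beta_reduce
    rw [projIcc_of_mem hab.le ht]
    exact h t ht
  · intro h t ht
    have := h t ht
    rw [mv_ext hab U x ht] at this
    beta_reduce at this
    rw [projIcc_of_mem hab.le ht] at this
    exact this

/-- On an unbounded interval only a bounded part of the constraints is active. -/
theorem reduce {I : Set ℝ} (hI : IsClosed I) (hI' : I.OrdConnected) (hI2 : I.Nontrivial)
    {U v : Fin n → ℝ → ℝ} (hU : ∀ i, ContinuousOn (U i) I)
    (hd : ∀ i, ∀ t ∈ interior I, HasDerivAt (U i) (v i t) t)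
    (hv : IsMarkovSystem v (interior I)) {w : ℝ → ℝ}
    (hgrowth : Tendsto (fun t => w t / (1 + ∑ i, |U i t|)) (cocompact ℝ ⊓ 𝓟 I) atTop) :
    ∃ a b : ℝ, a < b ∧ Icc a b ⊆ I ∧ unitBall U I w = unitBall U (Icc a b) w := by
  obtain ⟨a, ha, b, hb, hab⟩ := hI2.exists_lt
  have hsub : Icc a b ⊆ I := hI'.out ha hb
  have hJ : Ioo a b ⊆ interior I := by
    have := interior_mono hsub
    rwa [interior_Icc] at this
  have hS := ext_sys hab hJ (fun i => (hU i).mono hsub) hd hv
  have hcomp : IsCompact (unitBall U (Icc a b) w) := by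
    rw [ball_ext hab]; exact isCompact_mBall hab hS
  obtain ⟨M, hM⟩ := hcomp.isBounded.exists_norm_le
  have hev := hgrowth.eventually_ge_atTop (max M 0)
  rw [eventually_inf_principal] at hev
  obtain ⟨R, hR⟩ : ∃ R : ℝ, ∀ t : ℝ, R < |t| → t ∈ I → max M 0 ≤ w t / (1 + ∑ i, |U i t|) := by
    obtain ⟨s, hs, hs'⟩ := Filter.mem_cocompact.mp hev
    obtain ⟨R, hR⟩ := hs.isBounded.exists_norm_le
    refine ⟨R, fun t ht => ?_⟩
    have : t ∈ sᶜ := fun hts => by
      have := hR t hts
      rw [Real.norm_eq_abs] at this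
      linarith
    exact hs' this
  set R' : ℝ := max R (max |a| |b|) with hR'
  have h1 : |a| ≤ R' := (le_max_left _ _).trans (le_max_right _ _)
  have h2 : |b| ≤ R' := (le_max_right _ _).trans (le_max_right _ _)
  have h4 : R ≤ R' := le_max_left _ _
  have haJ : a ∈ I ∩ Icc (-R') R' := ⟨ha, abs_le.mp h1⟩
  have hbJ : b ∈ I ∩ Icc (-R') R' := ⟨hb, abs_le.mp h2⟩
  have hJc : IsCompact (I ∩ Icc (-R') R') := isCompact_Icc.inter_left hI
  have hJo : (I ∩ Icc (-R') R').OrdConnected := hI'.inter ordConnected_Icc
  have hJe : I ∩ Icc (-R') R' = Icc (sInf (I ∩ Icc (-R') R')) (sSup (I ∩ Icc (-R') R')) :=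
    eq_Icc_of_connected_compact ⟨⟨a, haJ⟩, hJo.isPreconnected⟩ hJc
  set a' := sInf (I ∩ Icc (-R') R') with ha'
  set b' := sSup (I ∩ Icc (-R') R') with hb'
  have ha1 : a ∈ Icc a' b' := hJe ▸ haJ
  have hb1 : b ∈ Icc a' b' := hJe ▸ hbJ
  refine ⟨a', b', lt_of_le_of_lt ha1.1 (lt_of_lt_of_le hab hb1.2), ?_, ?_⟩
  · rw [← hJe]; exact inter_subset_left
  · ext x
    constructor
    · intro h t ht
      rw [← hJe] at ht
      exact h t ht.1
    · intro h t ht
      by_cases htR : |t| ≤ R'
      · have : t ∈ Icc a' b' := by rw [← hJe]; exact ⟨ht, abs_le.mp htR⟩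
        exact h t this
      · push Not at htR
        have hx : x ∈ unitBall U (Icc a b) w := by
          intro s hs
          exact h s ⟨ha1.1.trans hs.1, hs.2.trans hb1.2⟩
        have hxM := hM x hx
        have hpos : 0 < 1 + ∑ i, |U i t| := by positivity
        have hw1 := hR t (by linarith) ht
        rw [le_div_iff₀ hpos] at hw1
        refine le_trans ?_ hw1
        have h5 : ∀ i, |x i| ≤ max M 0 := by
          intro i
          have := PiLp.norm_apply_le x i
          rw [Real.norm_eq_abs] at this
          exact (this.trans hxM).trans (le_max_left _ _)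
        calc |x 0 + ∑ i : Fin n, x i.succ * U i t|
            ≤ |x 0| + ∑ i : Fin n, |x i.succ * U i t| :=
              (abs_add_le _ _).trans (by gcongr; exact Finset.abs_sum_le_sum_abs _ _)
          _ ≤ max M 0 + ∑ i : Fin n, max M 0 * |U i t| := by
              gcongr with i _
              · exact h5 0
              · rw [abs_mul]
                exact mul_le_mul_of_nonneg_right (h5 _) (abs_nonneg _)
          _ = max M 0 * (1 + ∑ i, |U i t|) := by
              rw [← Finset.mul_sum]; ring

end aux

/-- Covering form. Let `n ≥ 1`, let `I` be a closed interval with more than one point, and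
`U_1, ..., U_n` continuous functions on `I` with derivatives `v_1, ..., v_n` inside `I` which form
a Markov system there. Let `w` be continuous and positive on `I`, without convex corners in the
interior of `I`, and (if `I` is unbounded) with `w / (1 + |U_1| + ... + |U_n|) → ∞` for
`|t| → ∞` in `I`. The set `K` of the functions `f = x_0 + x_1 U_1 + ... + x_n U_n` with
`|f| ≤ w` on `I` is a convex body in `ℝ^(n+1)`, and for every set `L` the set `K + L` is covered
by at most `2^n + 2` translates of its interior. -/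
theorem cover (n : ℕ) (hn : 1 ≤ n) (I : Set ℝ) (hI : IsClosed I) (hI' : I.OrdConnected)
    (hI2 : I.Nontrivial) (U v : Fin n → ℝ → ℝ) (hU : ∀ i, ContinuousOn (U i) I)
    (hd : ∀ i, ∀ t ∈ interior I, HasDerivAt (U i) (v i t) t)
    (hv : IsMarkovSystem v (interior I))
    (w : ℝ → ℝ) (hw : ContinuousOn w I) (hpos : ∀ t ∈ I, 0 < w t)
    (hgrowth : Tendsto (fun t => w t / (1 + ∑ i, |U i t|)) (cocompact ℝ ⊓ 𝓟 I) atTop)
    (hcorner : NoConvexCorner I w) :
    IsCompact (unitBall U I w) ∧ Convex ℝ (unitBall U I w) ∧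
    (interior (unitBall U I w)).Nonempty ∧
    ∀ L : Set (EuclideanSpace ℝ (Fin (n + 1))),
      ∃ T : Finset (EuclideanSpace ℝ (Fin (n + 1))), T.card ≤ 2 ^ n + 2 ∧
        unitBall U I w + L ⊆ ⋃ t ∈ T, (fun x => t + x) '' interior (unitBall U I w + L) := by
  obtain ⟨a, b, hab, hsub, hK⟩ := reduce hI hI' hI2 hU hd hv hgrowth
  have hJ : Ioo a b ⊆ interior I := by
    have := interior_mono hsub
    rwa [interior_Icc] at this
  have hS := ext_sys hab hJ (fun i => (hU i).mono hsub) hd hv
  have hwc : Continuous (fun t => w (projIcc a b hab.le t)) :=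
    ContinuousOn.comp_continuous (hw.mono hsub)
      (continuous_subtype_val.comp continuous_projIcc) (fun t => (projIcc a b hab.le t).2)
  have hsl : MSlope n (ext U a b hab) (fun t => w (projIcc a b hab.le t)) a b := by
    intro y hy f g hf hg hf' hg'
    have hn' : Icc a b ∈ 𝓝 y := Icc_mem_nhds hy.1 hy.2
    have hyI : y ∈ Icc a b := ⟨hy.1.le, hy.2.le⟩
    have key : ∀ q : EuclideanSpace ℝ (Fin (n + 1)),
        (∀ t ∈ Icc a b, mv (ext U a b hab) q t ≤ w (projIcc a b hab.le t)) →
        ∀ᶠ t in 𝓝 y, mv (ext U a b hab) q t ≤ w t := by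
      intro q hq
      filter_upwards [hn'] with t ht
      have := hq t ht
      rwa [projIcc_of_mem hab.le ht] at this
    refine hcorner y (hJ hy) _ _ (mv_hasDerivAt hS f hy.1 hy.2).differentiableAt
      (mv_hasDerivAt hS g hy.1 hy.2).differentiableAt ?_ ?_ (key f hf') (key g hg')
    · rw [hf]
      beta_reduce
      rw [projIcc_of_mem hab.le hyI]
    · rw [hg]
      beta_reduce
      rw [projIcc_of_mem hab.le hyI]
  obtain ⟨h1, h2, h3, T, hT, hT'⟩ := cover_mBall hab hwc hS
    (fun t ht => by
      rw [projIcc_of_mem hab.le ht]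
      exact hpos t (hsub ht)) hsl hn
  rw [hK, ball_ext hab]
  exact ⟨h1, h2, h3, fun L => ⟨T, hT, cover_add hT' L⟩⟩

/-- The arithmetic: `2^(d-1) + 2 ≤ 2^d - 2^(d-h)` for `d = n + 1 ≥ 3` and `h ≥ 3`. -/
theorem number_le {n : ℕ} (hn : 2 ≤ n) {h : ℕ} (hh : 2 < h) :
    2 ^ n + 2 ≤ 2 ^ (n + 1) - 2 ^ (n + 1 - h) := by
  obtain ⟨m, rfl⟩ : ∃ m, n = m + 2 := ⟨n - 2, by omega⟩
  have h1 : 2 ^ (m + 2 + 1 - h) ≤ 2 ^ m := Nat.pow_le_pow_right (by norm_num) (by omega)
  have h2 : 1 ≤ 2 ^ m := Nat.one_le_two_pow
  have h3 : 2 ^ (m + 2) = 4 * 2 ^ m := by ring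
  have h4 : 2 ^ (m + 2 + 1) = 8 * 2 ^ m := by ring
  omega

/-- **Theorem.** Let `n ≥ 2`, let `I` be a closed interval with more than one point, and
`U_1, ..., U_n` continuous functions on `I` with derivatives `v_1, ..., v_n` inside `I` which form
a Markov system there. Let `w` be continuous and positive on `I`, without convex corners in the
interior of `I`, and (if `I` is unbounded) with `w / (1 + |U_1| + ... + |U_n|) → ∞` for
`|t| → ∞` in `I`. Let `K` be the set of the functions `f = x_0 + x_1 U_1 + ... + x_n U_n` with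
`|f| ≤ w` on `I` and `L` a nonempty compact convex set in `ℝ^d`, `d = n + 1`. Then `K + L` is a
convex body and some set `D` of at most `2^(d-1) + 2` directions illuminates its boundary; if
`h > 2` (in particular if `him (K + L) = h > 2`) then `D` has at most `2^d - 2^(d-h)` elements. -/
theorem result (n : ℕ) (hn : 2 ≤ n) (I : Set ℝ) (hI : IsClosed I) (hI' : I.OrdConnected)
    (hI2 : I.Nontrivial) (U v : Fin n → ℝ → ℝ) (hU : ∀ i, ContinuousOn (U i) I)
    (hd : ∀ i, ∀ t ∈ interior I, HasDerivAt (U i) (v i t) t)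
    (hv : IsMarkovSystem v (interior I))
    (w : ℝ → ℝ) (hw : ContinuousOn w I) (hpos : ∀ t ∈ I, 0 < w t)
    (hgrowth : Tendsto (fun t => w t / (1 + ∑ i, |U i t|)) (cocompact ℝ ⊓ 𝓟 I) atTop)
    (hcorner : NoConvexCorner I w)
    (L : Set (EuclideanSpace ℝ (Fin (n + 1)))) (hL : IsCompact L) (hLc : Convex ℝ L)
    (hLn : L.Nonempty) :
    IsCompact (unitBall U I w + L) ∧ Convex ℝ (unitBall U I w + L) ∧
    (interior (unitBall U I w + L)).Nonempty ∧
    ∃ D : Finset (EuclideanSpace ℝ (Fin (n + 1))), D.card ≤ 2 ^ n + 2 ∧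
      (∀ h : ℕ, 2 < h → D.card ≤ 2 ^ (n + 1) - 2 ^ (n + 1 - h)) ∧
      ∀ x ∈ frontier (unitBall U I w + L), ∃ u ∈ D, u ≠ 0 ∧ ∃ s : ℝ, 0 < s ∧
        x + s • u ∈ interior (unitBall U I w + L) := by
  obtain ⟨h1, h2, h3, h4⟩ := cover n (by omega) I hI hI' hI2 U v hU hd hv w hw hpos hgrowth hcorner
  obtain ⟨T, hT, hT'⟩ := h4 L
  have hc : IsCompact (unitBall U I w + L) := h1.add hL
  refine ⟨hc, h2.add hLc, ?_, T.image (fun t => -t), Finset.card_image_le.trans hT, ?_, ?_⟩
  · obtain ⟨x, hx⟩ := h3
    obtain ⟨l, hl⟩ := hLn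
    refine ⟨x + l, ?_⟩
    have : interior (unitBall U I w) + L ⊆ interior (unitBall U I w + L) :=
      subset_interior_add_left
    exact this (Set.add_mem_add hx hl)
  · intro h hh
    exact (Finset.card_image_le.trans hT).trans (number_le hn hh)
  · intro x hx
    have hxK : x ∈ unitBall U I w + L := hc.isClosed.frontier_subset hx
    have hxi : x ∉ interior (unitBall U I w + L) := hx.2
    obtain ⟨t, ht, hxt⟩ : ∃ t ∈ T, x ∈ (fun x => t + x) '' interior (unitBall U I w + L) := by
      simpa using hT' hxK
    obtain ⟨y, hy, rfl⟩ := hxt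
    refine ⟨-t, Finset.mem_image_of_mem _ ht, ?_, 1, one_pos, ?_⟩
    · intro h0
      have : t = 0 := neg_eq_zero.mp h0
      apply hxi
      simpa [this] using hy
    · simpa using hy

end Pool.Agent.Results.MP_80156a_co.MarkovSystemBalls
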